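import Pool.Agent.V5helper51.MT.Stm

/-!
# Project MT, job MTM: the main term
-/

set_option autoImplicit false

open Finset MeasureTheory

namespace Pool.Agent.V5helper16.MT

open Pool.Agent.V5helper51.MT

theorem phi_nonneg (t : ℝ) : 0 ≤ φ t := le_max_left _ _

theorem phi_ge {t : ℝ} (h : |t - 1 / 2| ≤ 1 / 4) : 1 / 2 ≤ φ t := by
  refine le_trans ?_ (le_max_right _ _)
  have h1 := abs_le.1 h
  have h2 : |2 * t - 1| ≤ 1 / 2 := abs_le.2 ⟨by linarith, by linarith⟩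
  linarith

theorem phi_cont : Continuous φ := by
  unfold φ
  fun_prop

theorem G_cont (k q ρ : ℕ) (α : Fin (k - 1) → ℝ) : Continuous (G k q ρ α) := by
  unfold G g
  fun_prop

/-- the Lipschitz constant -/
theorem G_lip (k q ρ : ℕ) (hk : 2 ≤ k) (hq : 1 ≤ q) (α : Fin (k - 1) → ℝ) : ∃ C : ℝ, 0 < C ∧ ∀ X : ℝ, 1 ≤ X →
    ∀ u v : ℝ, 0 ≤ u → u ≤ X → 0 ≤ v → v ≤ X → |G k q ρ α u - G k q ρ α v| ≤ C * X ^ (k - 1) * |u - v| := by
  have hq1 : (1 : ℝ) ≤ q := by exact_mod_cast hq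
  have hρ0 : (0 : ℝ) ≤ ρ := Nat.cast_nonneg _
  have hk0 : (0 : ℝ) < k := by exact_mod_cast (by omega : 0 < k)
  obtain ⟨B, hB⟩ : ∃ B : ℝ, B = q + ρ := ⟨_, rfl⟩
  have hB1 : 1 ≤ B := by rw [hB]; linarith
  refine ⟨k * B ^ (k - 1) + ∑ j : Fin (k - 1), |α j| * (q * (((j : ℕ) + 1 : ℕ) : ℝ) * B ^ (k - 1)), ?_, ?_⟩
  · have h1 : 0 < (k : ℝ) * B ^ (k - 1) := by positivity
    have h2 : 0 ≤ ∑ j : Fin (k - 1), |α j| * (q * (((j : ℕ) + 1 : ℕ) : ℝ) * B ^ (k - 1)) :=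
      sum_nonneg fun j _ => by positivity
    linarith
  · intro X hX u v hu huX hv hvX
    have hBX : 1 ≤ B * X := by nlinarith
    have bd : ∀ t : ℝ, 0 ≤ t → t ≤ X → |q * t + ρ| ≤ B * X := by
      intro t ht htX
      rw [abs_of_nonneg (by positivity), hB]
      nlinarith
    have hm : max |q * u + ρ| |q * v + ρ| ≤ B * X := max_le (bd u hu huX) (bd v hv hvX)
    have hm0 : 0 ≤ max |q * u + (ρ : ℝ)| |q * v + ρ| := le_max_of_le_left (abs_nonneg _)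
    have hd : |(q * u + ρ) - (q * v + (ρ : ℝ))| = q * |u - v| := by
      rw [show (q * u + ρ) - (q * v + (ρ : ℝ)) = q * (u - v) by ring, abs_mul, abs_of_nonneg (by positivity)]
    have hp : ∀ n : ℕ, n ≤ k → |(q * u + ρ) ^ n - (q * v + (ρ : ℝ)) ^ n| ≤ q * |u - v| * n * (B * X) ^ (k - 1) := by
      intro n hn
      refine (abs_pow_sub_pow_le _ _ n).trans ?_
      rw [hd]
      refine mul_le_mul_of_nonneg_left ?_ (by positivity)
      calc max |q * u + (ρ : ℝ)| |q * v + ρ| ^ (n - 1) ≤ (B * X) ^ (n - 1) := pow_le_pow_left₀ hm0 hm _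
        _ ≤ (B * X) ^ (k - 1) := pow_le_pow_right₀ hBX (by omega)
    have e1 : G k q ρ α u - G k q ρ α v = ((q * u + ρ) ^ k - (q * v + (ρ : ℝ)) ^ k) / q +
        ∑ j : Fin (k - 1), α j * ((q * u + ρ) ^ ((j : ℕ) + 1) - (q * v + (ρ : ℝ)) ^ ((j : ℕ) + 1)) := by
      have h3 : ∑ j : Fin (k - 1), α j * ((q * u + ρ) ^ ((j : ℕ) + 1) - (q * v + (ρ : ℝ)) ^ ((j : ℕ) + 1)) =
          g k α (q * u + ρ) - g k α (q * v + ρ) := by
        unfold g
        rw [← sum_sub_distrib]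
        exact sum_congr rfl fun j _ => by ring
      rw [h3]
      unfold G
      ring
    rw [e1]
    refine (abs_add_le _ _).trans ?_
    have e2 : |((q * u + ρ) ^ k - (q * v + (ρ : ℝ)) ^ k) / q| ≤ k * B ^ (k - 1) * X ^ (k - 1) * |u - v| := by
      rw [abs_div, abs_of_nonneg (by positivity : (0 : ℝ) ≤ q), div_le_iff₀ (by linarith)]
      refine (hp k le_rfl).trans (le_of_eq ?_)
      rw [mul_pow]
      ring
    have e3 : |∑ j : Fin (k - 1), α j * ((q * u + ρ) ^ ((j : ℕ) + 1) - (q * v + (ρ : ℝ)) ^ ((j : ℕ) + 1))| ≤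
        (∑ j : Fin (k - 1), |α j| * (q * (((j : ℕ) + 1 : ℕ) : ℝ) * B ^ (k - 1))) * X ^ (k - 1) * |u - v| := by
      refine (abs_sum_le_sum_abs _ _).trans ?_
      rw [sum_mul, sum_mul]
      refine sum_le_sum fun j _ => ?_
      rw [abs_mul]
      have h4 := hp ((j : ℕ) + 1) (by omega)
      calc |α j| * |(q * u + ρ) ^ ((j : ℕ) + 1) - (q * v + (ρ : ℝ)) ^ ((j : ℕ) + 1)| ≤
            |α j| * (q * |u - v| * (((j : ℕ) + 1 : ℕ) : ℝ) * (B * X) ^ (k - 1)) :=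
            mul_le_mul_of_nonneg_left h4 (abs_nonneg _)
        _ = _ := by rw [mul_pow]; ring
    calc _ ≤ _ := add_le_add e2 e3
      _ = _ := by ring

theorem t_MTM : Pool.Agent.V5helper51.MT.S_MTM := by
  intro k q ρ hk hq α
  obtain ⟨C, hC, hlip⟩ := G_lip k q ρ hk hq α
  have hq1 : (1 : ℝ) ≤ q := by exact_mod_cast hq
  have hρ0 : (0 : ℝ) ≤ ρ := Nat.cast_nonneg _
  obtain ⟨B, hB⟩ : ∃ B : ℝ, B = q + ρ := ⟨_, rfl⟩
  have hB1 : 1 ≤ B := by rw [hB]; linarith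
  obtain ⟨A, hA⟩ : ∃ A : ℝ, A = ∑ j : Fin (k - 1), |α j| * B ^ (k - 1) := ⟨_, rfl⟩
  have hA0 : 0 ≤ A := by rw [hA]; exact sum_nonneg fun j _ => by positivity
  obtain ⟨X₀, hX₀⟩ := exists_nat_ge (2 * (A + (ρ : ℝ) ^ k + 1) + |g k α ρ| + 1 / (2 * C) + 1)
  have hg0 := abs_nonneg (g k α ρ)
  have hC2 : 0 < 1 / (2 * C) := by positivity
  have hρk : 0 ≤ (ρ : ℝ) ^ k := by positivity
  refine ⟨1 / (8 * C), by positivity, X₀, fun X hX w hw1 hw2 => ?_⟩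
  have hXX : (X₀ : ℝ) ≤ X := by exact_mod_cast hX
  have hX1 : (1 : ℝ) ≤ X := by linarith
  have hXk : (1 : ℝ) ≤ (X : ℝ) ^ (k - 1) := one_le_pow₀ hX1
  -- the ends
  have hG0 : G k q ρ α 0 ≤ w + 1 / 2 := by
    have h1 : G k q ρ α 0 = g k α ρ := by
      unfold G
      simp
    rw [h1]
    have h2 := le_abs_self (g k α ρ)
    linarith
  have hGX : w + 1 / 2 ≤ G k q ρ α X := by
    have h1 : (X : ℝ) ^ k = (X : ℝ) ^ (k - 1) * X := by rw [← pow_succ]; congr 1; omega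
    have h2 : (X : ℝ) ^ k - (ρ : ℝ) ^ k ≤ ((q * (X : ℝ) + ρ) ^ k - (ρ : ℝ) ^ k) / q := by
      have h3 : (q : ℝ) * (X : ℝ) ^ k ≤ (q * (X : ℝ) + ρ) ^ k := by
        have h4 : (q * (X : ℝ)) ^ k ≤ (q * (X : ℝ) + ρ) ^ k := pow_le_pow_left₀ (by positivity) (by linarith) k
        have h5 : (q : ℝ) ≤ (q : ℝ) ^ k := le_self_pow₀ hq1 (by omega)
        rw [mul_pow] at h4
        have h6 : 0 ≤ (X : ℝ) ^ k := by positivity
        nlinarith
      rw [le_div_iff₀ (by linarith)]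
      nlinarith
    have h3 : -(A * (X : ℝ) ^ (k - 1)) ≤ g k α (q * X + ρ) := by
      refine (abs_le.1 ?_).1
      unfold g
      refine (abs_sum_le_sum_abs _ _).trans ?_
      rw [hA, sum_mul]
      refine sum_le_sum fun j _ => ?_
      have hj : (j : ℕ) < k - 1 := j.2
      rw [abs_mul, abs_pow, abs_of_nonneg (by positivity : (0 : ℝ) ≤ q * X + ρ), mul_assoc, ← mul_pow]
      refine mul_le_mul_of_nonneg_left ?_ (abs_nonneg _)
      have h4 : q * (X : ℝ) + ρ ≤ B * X := by rw [hB]; nlinarith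
      have h5 : 1 ≤ B * (X : ℝ) := by nlinarith
      calc (q * (X : ℝ) + ρ) ^ ((j : ℕ) + 1) ≤ (B * X) ^ ((j : ℕ) + 1) := pow_le_pow_left₀ (by positivity) h4 _
        _ ≤ (B * X) ^ (k - 1) := pow_le_pow_right₀ h5 (by omega)
    have h4 : G k q ρ α X = ((q * (X : ℝ) + ρ) ^ k - (ρ : ℝ) ^ k) / q + g k α (q * X + ρ) := rfl
    have h5 : (X : ℝ) ^ (k - 1) * (A + (ρ : ℝ) ^ k + 1) ≤ (X : ℝ) ^ k / 2 := by
      rw [h1]
      nlinarith
    rw [h4]
    nlinarith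
  obtain ⟨u, ⟨hu0, huX⟩, hu⟩ := intermediate_value_Icc (by linarith : (0 : ℝ) ≤ X)
    (G_cont k q ρ α).continuousOn ⟨hG0, hGX⟩
  obtain ⟨δ, hδ⟩ : ∃ δ : ℝ, δ = 1 / (4 * C * (X : ℝ) ^ (k - 1)) := ⟨_, rfl⟩
  have hCX : 0 < 4 * C * (X : ℝ) ^ (k - 1) := by positivity
  have hδ0 : 0 < δ := by rw [hδ]; positivity
  have hδ1 : 2 * δ ≤ X := by
    have h1 : 2 * δ ≤ 1 / (2 * C) := by
      rw [hδ, mul_one_div, div_le_div_iff₀ hCX (by positivity)]
      nlinarith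
    linarith
  have hδ2 : C * (X : ℝ) ^ (k - 1) * δ = 1 / 4 := by
    rw [hδ]
    field_simp
  obtain ⟨a, ha0, haX, ha⟩ : ∃ a : ℝ, 0 ≤ a ∧ a + δ ≤ X ∧ ∀ t, a ≤ t → t ≤ a + δ → |t - u| ≤ δ := by
    by_cases h1 : δ ≤ u
    · exact ⟨u - δ, by linarith, by linarith, fun t h2 h3 => abs_le.2 ⟨by linarith, by linarith⟩⟩
    · exact ⟨u, hu0, by linarith, fun t h2 h3 => abs_le.2 ⟨by linarith, by linarith⟩⟩
  have hcont : Continuous fun u : ℝ => φ (G k q ρ α u - w) := phi_cont.comp ((G_cont k q ρ α).sub continuous_const)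
  have hmono : ∫ t in a..(a + δ), φ (G k q ρ α t - w) ≤ ∫ t in (0 : ℝ)..X, φ (G k q ρ α t - w) :=
    intervalIntegral.integral_mono_interval ha0 (by linarith) haX
      (Filter.Eventually.of_forall fun t => phi_nonneg _) (hcont.intervalIntegrable _ _)
  have hlow : δ * (1 / 2) ≤ ∫ t in a..(a + δ), φ (G k q ρ α t - w) := by
    have h1 : ∫ _ in a..(a + δ), (1 / 2 : ℝ) = δ * (1 / 2) := by
      rw [intervalIntegral.integral_const, smul_eq_mul]
      ring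
    rw [← h1]
    refine intervalIntegral.integral_mono_on (by linarith) (continuous_const.intervalIntegrable _ _)
      (hcont.intervalIntegrable _ _) fun t ht => phi_ge ?_
    have h2 := hlip X hX1 t u (ha0.trans ht.1) (ht.2.trans haX) hu0 huX
    have h3 := ha t ht.1 ht.2
    have h4 : G k q ρ α t - w - 1 / 2 = G k q ρ α t - G k q ρ α u := by rw [hu]; ring
    rw [h4, ← hδ2]
    exact h2.trans (mul_le_mul_of_nonneg_left h3 (by positivity))
  refine le_trans (le_of_eq ?_) (hlow.trans hmono)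
  rw [hδ]
  field_simp
  ring

end Pool.Agent.V5helper16.MT
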